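import Mathlib
import Pool.Agent.Q51.UF.NearK

set_option autoImplicit false

/-!
# The ratios of the nondegenerate solutions of `∑ z_i = 0` near a group of finite rank
-/

namespace Pool.Agent.Q51.UN

open Finset MvPolynomial
open Pool.Agent.Helper259.AbsHt Pool.Agent.H533R3.SL Pool.Agent.Y215.SP Pool.Agent.Y215.SK

/-- `y` is the product of a vector with coordinates in the division hull of `Γ` and a vector of
height less than `ε` -/
def Mx (Γ : Subgroup Qbarˣ) (ε : ℝ) {α : Type} [Finite α] (y : α → Qbar) : Prop :=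
  ∃ (u : α → Qbarˣ) (s : α → Qbar), (∀ j, u j ∈ DivHull Γ) ∧ absLogHeight s < ε ∧
    ∀ j, y j = u j * s j

theorem hull_mul (Γ : Subgroup Qbarˣ) {u w : Qbarˣ} (hu : u ∈ DivHull Γ) (hw : w ∈ DivHull Γ) :
    u * w ∈ DivHull Γ := by
  obtain ⟨m, hm, hmu⟩ := hu
  obtain ⟨m', hm', hmw⟩ := hw
  refine ⟨m * m', Nat.mul_pos hm hm', ?_⟩
  rw [mul_pow]
  refine Γ.mul_mem ?_ ?_
  · rw [pow_mul]
    exact Γ.pow_mem hmu _
  · rw [mul_comm m m', pow_mul]
    exact Γ.pow_mem hmw _

theorem hull_one (Γ : Subgroup Qbarˣ) : (1 : Qbarˣ) ∈ DivHull Γ := ⟨1, one_pos, by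
  rw [one_pow]
  exact Γ.one_mem⟩

theorem hull_pow (Γ : Subgroup Qbarˣ) {u : Qbarˣ} (hu : u ∈ DivHull Γ) (m : ℕ) :
    u ^ m ∈ DivHull Γ := by
  induction m with
  | zero =>
    rw [pow_zero]
    exact hull_one Γ
  | succ m ih =>
    rw [pow_succ]
    exact hull_mul Γ ih hu

theorem hull_prod (Γ : Subgroup Qbarˣ) {κ : Type} (s : Finset κ) (u : κ → Qbarˣ)
    (hu : ∀ i ∈ s, u i ∈ DivHull Γ) : ∏ i ∈ s, u i ∈ DivHull Γ := by
  classical
  induction s using Finset.induction_on with
  | empty => simpa using hull_one Γ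
  | insert a s ha ih =>
    rw [Finset.prod_insert ha]
    exact hull_mul Γ (hu a (Finset.mem_insert_self _ _))
      (ih fun i hi => hu i (Finset.mem_insert_of_mem hi))

theorem hull_sign (Γ : Subgroup Qbarˣ) (e : ℤˣ) :
    Units.map (Int.castRingHom Qbar).toMonoidHom e ∈ DivHull Γ := by
  refine ⟨2, two_pos, ?_⟩
  rw [← map_pow]
  have : e ^ 2 = 1 := Int.units_sq e
  rw [this, map_one]
  exact Γ.one_mem

theorem Mx.comp {Γ : Subgroup Qbarˣ} {ε : ℝ} {α β : Type} [Finite α] [Finite β] {y : α → Qbar}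
    (h : Mx Γ ε y) (f : β → α) : Mx Γ ε (fun i => y (f i)) := by
  obtain ⟨u, s, hu, hs, hy⟩ := h
  exact ⟨fun i => u (f i), fun i => s (f i), fun i => hu _,
    lt_of_le_of_lt (absLogHeight_comp_le f s) hs, fun i => hy _⟩

theorem Mx.mono {Γ : Subgroup Qbarˣ} {ε ε' : ℝ} {α : Type} [Finite α] {y : α → Qbar}
    (h : Mx Γ ε y) (he : ε ≤ ε') : Mx Γ ε' y := by
  obtain ⟨u, s, hu, hs, hy⟩ := h
  exact ⟨u, s, hu, lt_of_lt_of_le hs he, hy⟩

theorem Mx.smul {Γ : Subgroup Qbarˣ} {ε : ℝ} {α : Type} [Finite α] {y : α → Qbar}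
    (h : Mx Γ ε y) (w : α → Qbarˣ) (hw : ∀ j, w j ∈ DivHull Γ) :
    Mx Γ ε (fun j => (w j : Qbar) * y j) := by
  obtain ⟨u, s, hu, hs, hy⟩ := h
  refine ⟨fun j => w j * u j, s, fun j => hull_mul Γ (hw j) (hu j), hs, fun j => ?_⟩
  show (w j : Qbar) * y j = ((w j * u j : Qbarˣ) : Qbar) * s j
  rw [hy j, Units.val_mul, mul_assoc]

theorem Mx.prod {Γ : Subgroup Qbarˣ} {ε : ℝ} {α κ : Type} [Finite α] (S : Finset κ)
    (hS : S.Nonempty) (y : κ → α → Qbar) (h : ∀ i ∈ S, Mx Γ ε (y i)) :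
    Mx Γ (S.card * ε) (fun j => ∏ i ∈ S, y i j) := by
  classical
  have h' : ∀ i : κ, ∃ (u : α → Qbarˣ) (s : α → Qbar), i ∈ S → ((∀ j, u j ∈ DivHull Γ) ∧
      absLogHeight s < ε ∧ ∀ j, y i j = u j * s j) := by
    intro i
    by_cases hi : i ∈ S
    · obtain ⟨u, s, hh⟩ := h i hi
      exact ⟨u, s, fun _ => hh⟩
    · exact ⟨1, 1, fun h0 => absurd h0 hi⟩
  choose u s hus using h'
  refine ⟨fun j => ∏ i ∈ S, u i j, fun j => ∏ i ∈ S, s i j, fun j =>
    hull_prod Γ S _ fun i hi => (hus i hi).1 j, ?_, fun j => ?_⟩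
  · refine lt_of_le_of_lt (abs_prod_le S s) ?_
    refine lt_of_lt_of_le (Finset.sum_lt_sum_of_nonempty hS fun i hi => (hus i hi).2.1) ?_
    rw [Finset.sum_const, nsmul_eq_mul]
  · rw [Units.coe_prod, ← Finset.prod_mul_distrib]
    exact Finset.prod_congr rfl fun i hi => (hus i hi).2.2 j

/-- `T` contains the ratios of the coordinates of the nondegenerate solutions of `∑ z_i = 0` in at
most `m` unknowns -/
def Ratios (Γ : Subgroup Qbarˣ) (m : ℕ) (ε : ℝ) (T : Finset Qbar) : Prop :=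
  ∀ (α : Type) [Fintype α], Fintype.card α ≤ m → ∀ z : α → Qbar, (∀ j, z j ≠ 0) → Mx Γ ε z →
    ∑ j, z j = 0 → (∀ A : Finset α, A.Nonempty → A ≠ Finset.univ → ∑ j ∈ A, z j ≠ 0) →
    ∀ j j', z j / z j' ∈ T

/-- the bound for the heights -/
noncomputable def eps0 (N : ℕ) : ℝ :=
  (Finset.range (N + 1)).inf' (Finset.nonempty_range_add_one) (fun m => epsn (2 ^ (m + 1)) / 2)

theorem eps0_pos (N : ℕ) : 0 < eps0 N := by
  unfold eps0
  rw [Finset.lt_inf'_iff]
  intro m _
  exact half_pos (epsn_pos _ (Nat.one_le_two_pow))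

theorem eps0_le {N m : ℕ} (h : m ≤ N) : eps0 N ≤ epsn (2 ^ (m + 1)) / 2 :=
  Finset.inf'_le _ (Finset.mem_range.2 (Nat.lt_succ_of_le h))

/-- the product of the proper subsums -/
noncomputable def GG (m : ℕ) : MvPolynomial (Fin (m + 1)) (MvPolynomial Empty ℚ) :=
  ∏ A ∈ (Finset.univ : Finset (Finset (Fin (m + 1)))).filter
    (fun A => A.Nonempty ∧ A ≠ Finset.univ), ∑ i ∈ A, X i

theorem GG_hom (m : ℕ) : ∃ e, (GG m).IsHomogeneous e :=
  ⟨_, MvPolynomial.IsHomogeneous.prod _ _ (fun _ => 1) fun _ _ =>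
    MvPolynomial.IsHomogeneous.sum _ _ _ fun i _ => isHomogeneous_X _ i⟩

/-- the finiteness theorem for the hyperplane -/
theorem hyp_finite (m : ℕ) (Γ : Subgroup Qbarˣ) (hΓ : Γ.FG) :
    (mixPts (fun _ : Fin 1 => Pool.Agent.Q51.UF.K.fam (algebraMap ℚ Qbar) (fun a : Empty => a.elim)
        (∑ i : Fin (m + 1), X i : MvPolynomial (Fin (m + 1)) (MvPolynomial Empty ℚ)))
      (Pool.Agent.Q51.UF.K.fam (algebraMap ℚ Qbar) (fun a : Empty => a.elim) (GG m)) Γ
      (epsn (2 ^ (m + 1)) / 2)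
      (fun (j i : Fin (m + 1)) => if i = j then (1 : Qbar) else 0)).Finite := by
  classical
  obtain ⟨B, e, hB⟩ := Pool.Agent.Q51.UF.K.mix_finiteU (r := m + 1) (algebraMap ℚ Qbar)
    (fun _ : Fin 1 => (∑ i : Fin (m + 1), X i : MvPolynomial (Fin (m + 1)) (MvPolynomial Empty ℚ)))
    1 le_rfl (fun _ => ⟨1, le_rfl, MvPolynomial.IsHomogeneous.sum _ _ _ fun i _ =>
      isHomogeneous_X _ i⟩)
    (GG m) (GG_hom m) {p | p.1 = p.2} (by
      intro L _ ι a c l hT h1 ⟨i0, i1, h2⟩
      have hcc : ∀ i, cur c l i = Polynomial.C (c i i) * Polynomial.X ^ l i := by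
        intro i
        unfold Pool.Agent.H533R3.SL.cur
        rw [Finset.sum_eq_single i]
        · intro j _ hj
          rw [hT j i (by simpa using hj), map_zero, zero_mul]
        · intro h
          exact absurd (Finset.mem_univ _) h
      have hsc : ∀ i, ∑ j, c j i = c i i := by
        intro i
        rw [Finset.sum_eq_single i]
        · intro j _ hj
          exact hT j i (by simpa using hj)
        · intro h
          exact absurd (Finset.mem_univ _) h
      have h3 : ∑ i, Polynomial.C (c i i) * Polynomial.X ^ l i = 0 := by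
        have h4 := h1 0
        unfold Pool.Agent.Q51.UF.K.fam at h4
        rw [map_sum, map_sum] at h4
        rw [← h4]
        refine Finset.sum_congr rfl fun i _ => ?_
        rw [map_X, aeval_X, hcc]
      unfold Pool.Agent.Q51.UF.K.fam GG
      rw [map_prod, map_prod]
      refine Finset.prod_eq_zero (i := Finset.univ.filter fun i => l i = l i0) ?_ ?_
      · rw [Finset.mem_filter]
        refine ⟨Finset.mem_univ _, ⟨i0, by simp⟩, fun h => h2 ?_⟩
        have hl : ∀ i, l i = l i0 := by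
          intro i
          have h5 : i ∈ Finset.univ.filter fun i => l i = l i0 := by
            rw [h]
            exact Finset.mem_univ _
          exact (Finset.mem_filter.1 h5).2
        rw [hcc, hcc, hsc, hsc, hl i1]
        ring
      · have h5 := congrArg (fun p => Polynomial.coeff p (l i0)) h3
        simp only [Polynomial.finsetSum_coeff, Polynomial.coeff_C_mul, Polynomial.coeff_X_pow,
          Polynomial.coeff_zero, mul_ite, mul_one, mul_zero] at h5
        rw [map_sum, map_sum]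
        have h6 : ∑ i ∈ Finset.univ.filter (fun i => l i = l i0), c i i = 0 := by
          rw [← h5, Finset.sum_filter]
          refine Finset.sum_congr rfl fun i _ => ?_
          by_cases h : l i = l i0
          · rw [if_pos h, if_pos h.symm]
          · rw [if_neg h, if_neg (fun h' => h h'.symm)]
        rw [← h6]
        refine Finset.sum_congr rfl fun i _ => ?_
        rw [map_X, eval_X, hsc]) Γ hΓ
  have h := (hB (fun a : Empty => a.elim) (fun (j i : Fin (m + 1)) => if i = j then (1 : Qbar) else 0)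
    (by
      intro j i hji
      exact if_neg (fun h => hji h.symm))).1
  simpa using h

theorem exists_ratios (Γ : Subgroup Qbarˣ) (hΓ : Γ.FG) (N : ℕ) :
    ∃ T : Finset Qbar, Ratios Γ N (eps0 N) T := by
  classical
  have hfin := fun m => hyp_finite m Γ hΓ
  refine ⟨(Finset.range (N + 1)).biUnion fun m => (hfin m).toFinset.biUnion fun p =>
    Finset.univ.image fun q : Fin (m + 1) × Fin (m + 1) => p.rep q.1 / p.rep q.2, ?_⟩
  intro α _ hα z hz hM hsum hnd j j'
  obtain ⟨m, hm⟩ : ∃ m, Fintype.card α = m + 1 := by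
    refine ⟨Fintype.card α - 1, ?_⟩
    have : 0 < Fintype.card α := Fintype.card_pos_iff.2 ⟨j⟩
    omega
  obtain ⟨f⟩ : Nonempty (Fin (m + 1) ≃ α) := ⟨(Fintype.equivFinOfCardEq hm).symm⟩
  obtain ⟨u, s, hu, hs, hy⟩ := hM.comp (fun i => f i)
  let z' : Fin (m + 1) → Qbar := fun i => z (f i)
  have hz'0 : z' ≠ 0 := by
    intro h
    have h1 := congrFun h (f.symm j)
    simp only [z', Equiv.apply_symm_apply] at h1
    exact hz j h1
  have hps : psum Finset.univ u (fun (j a : Fin (m + 1)) => s j * (if a = j then (1 : Qbar) else 0)) =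
      z' := by
    funext a
    unfold Pool.Agent.Y215.SK.psum
    rw [Finset.sum_eq_single a]
    · show (u a : Qbar) * (s a * (if a = a then (1 : Qbar) else 0)) = z' a
      rw [if_pos rfl, mul_one]
      exact (hy a).symm
    · intro b _ hb
      show (u b : Qbar) * (s b * (if a = b then (1 : Qbar) else 0)) = 0
      rw [if_neg (fun h => hb h.symm), mul_zero, mul_zero]
    · intro h
      exact absurd (Finset.mem_univ _) h
  have hsub : ∀ A : Finset (Fin (m + 1)), ∑ i ∈ A, z' i = ∑ i ∈ A.map f.toEmbedding, z i := by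
    intro A
    rw [Finset.sum_map]
    rfl
  have hev : ∀ A : Finset (Fin (m + 1)),
      MvPolynomial.aeval z' (Pool.Agent.Q51.UF.K.fam (algebraMap ℚ Qbar) (fun a : Empty => a.elim)
        (∑ i ∈ A, X i : MvPolynomial (Fin (m + 1)) (MvPolynomial Empty ℚ))) = ∑ i ∈ A, z' i := by
    intro A
    unfold Pool.Agent.Q51.UF.K.fam
    rw [map_sum, map_sum]
    refine Finset.sum_congr rfl fun i _ => ?_
    rw [map_X, aeval_X]
  have hmem : Projectivization.mk Qbar z' hz'0 ∈ mixPts (fun _ : Fin 1 =>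
      Pool.Agent.Q51.UF.K.fam (algebraMap ℚ Qbar) (fun a : Empty => a.elim)
        (∑ i : Fin (m + 1), X i : MvPolynomial (Fin (m + 1)) (MvPolynomial Empty ℚ)))
      (Pool.Agent.Q51.UF.K.fam (algebraMap ℚ Qbar) (fun a : Empty => a.elim) (GG m)) Γ
      (epsn (2 ^ (m + 1)) / 2)
      (fun (j i : Fin (m + 1)) => if i = j then (1 : Qbar) else 0) := by
    refine ⟨u, s, hu, lt_of_lt_of_le hs (eps0_le (by omega)), ?_, ?_⟩
    · rw [hps]
      refine ⟨hz'0, fun _ => ?_, ?_⟩
      · rw [hev, hsub]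
        rw [← hsum]
        refine Finset.sum_congr ?_ fun _ _ => rfl
        ext x
        simp
      · unfold GG Pool.Agent.Q51.UF.K.fam
        rw [map_prod, map_prod, Finset.prod_ne_zero_iff]
        intro A hA
        obtain ⟨-, hAne, hAu⟩ := Finset.mem_filter.1 hA
        have h1 := hev A
        unfold Pool.Agent.Q51.UF.K.fam at h1
        rw [h1, hsub]
        refine hnd _ (hAne.map) fun h => hAu ?_
        ext x
        refine ⟨fun _ => Finset.mem_univ _, fun _ => ?_⟩
        have h2 : f x ∈ A.map f.toEmbedding := by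
          rw [h]
          exact Finset.mem_univ _
        obtain ⟨x', hx', hxx⟩ := Finset.mem_map.1 h2
        have : x' = x := f.injective hxx
        rwa [← this]
    · have h0 : psum Finset.univ u (fun (j a : Fin (m + 1)) =>
          s j * (if a = j then (1 : Qbar) else 0)) ≠ 0 := by
        rw [hps]
        exact hz'0
      exact ⟨h0, mk_congr hz'0 h0 hps.symm⟩
  rw [Finset.mem_biUnion]
  refine ⟨m, Finset.mem_range.2 (by omega), ?_⟩
  rw [Finset.mem_biUnion]
  refine ⟨_, (Set.Finite.mem_toFinset _).2 hmem, ?_⟩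
  rw [Finset.mem_image]
  refine ⟨(f.symm j, f.symm j'), Finset.mem_univ _, ?_⟩
  obtain ⟨a, ha⟩ := Projectivization.exists_smul_eq_mk_rep Qbar z' hz'0
  rw [← ha]
  show ((a : Qbar) * z' (f.symm j)) / ((a : Qbar) * z' (f.symm j')) = _
  rw [mul_div_mul_left _ _ a.ne_zero]
  simp only [z', Equiv.apply_symm_apply]

end Pool.Agent.Q51.UN
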