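import Mathlib
import Pool.Agent.Q51.UN.Inp

set_option autoImplicit false

/-! # The number of nondegenerate points near a group of finite rank on a hyperplane -/

namespace Pool.Agent.Q51.UN

open Finset
open Pool.Agent.Helper259.AbsHt Pool.Agent.Y215.SP
open Pool.Agent.Y215.SK (DivHull)

variable {L : Type} [Field L]

/-- the nondegenerate solutions near the group of the equation `∑ a_j y_j = 0` -/
def SolM (ι : Qbar →+* L) (Γ : Subgroup Qbarˣ) (ε : ℝ) {α : Type} [Fintype α] (a : α → L) :
    Set (α → Qbar) :=
  {y | (∀ j, y j ≠ 0) ∧ Mx Γ ε y ∧ ∑ j, a j * ι (y j) = 0 ∧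
    ∀ A : Finset α, A.Nonempty → A ≠ Finset.univ → ∑ j ∈ A, a j * ι (y j) ≠ 0}

theorem coef_ne {ι : Qbar →+* L} {Γ : Subgroup Qbarˣ} {ε : ℝ} {α : Type} [Fintype α]
    (hα : 2 ≤ Fintype.card α)
    {a : α → L} {y : α → Qbar} (hy : y ∈ SolM ι Γ ε a) (j : α) : a j ≠ 0 := by
  intro h0
  refine hy.2.2.2 {j} (Finset.singleton_nonempty j) ?_ (by simp [h0])
  intro h
  have := congrArg Finset.card h
  rw [Finset.card_singleton, Finset.card_univ] at this
  omega

/-- all determinants of `card α` solutions vanish -/
theorem det_full {ι : Qbar →+* L} {Γ : Subgroup Qbarˣ} {ε : ℝ} {α : Type} [Fintype α]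
    (hα : 2 ≤ Fintype.card α)
    {a : α → L} (R : Fin (Fintype.card α) → α → Qbar) (hR : ∀ i, R i ∈ SolM ι Γ ε a)
    (col : Fin (Fintype.card α) → α) :
    (Matrix.of fun k i => R i (col k)).det = 0 := by
  classical
  by_cases hinj : Function.Injective col
  · have hbij : Function.Bijective col :=
      (Fintype.bijective_iff_injective_and_card col).2 ⟨hinj, by simp⟩
    have hpos : 0 < Fintype.card α := by omega
    set i0 : Fin (Fintype.card α) := ⟨0, hpos⟩
    have h1 : ((Matrix.of fun k i => R i (col k)).map ι).det = 0 := by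
      refine Matrix.exists_vecMul_eq_zero_iff.1 ⟨fun k => a (col k), ?_, ?_⟩
      · intro h
        exact coef_ne hα (hR i0) (col i0) (congrFun h i0)
      · funext i
        show ∑ k, a (col k) * ι (R i (col k)) = 0
        rw [← (hR i).2.2.1]
        exact Fintype.sum_bijective col hbij _ _ (fun k => rfl)
    rw [← RingHom.mapMatrix_apply, ← RingHom.map_det] at h1
    exact (map_eq_zero ι).1 h1
  · simp only [Function.Injective, not_forall] at hinj
    obtain ⟨k, k', hkk, hne⟩ := hinj
    exact Matrix.det_zero_of_row_eq hne (by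
      funext i
      simp [hkk])

/-- the bound for the number of values of a ratio -/
def bd (n τ : ℕ) : ℕ := n.factorial ^ 2 * τ

theorem step (n : ℕ) (ι : Qbar →+* L) (Γ : Subgroup Qbarˣ) (ε : ℝ) (hε : 0 ≤ ε) (T0 : Finset Qbar)
    (hT0 : Ratios Γ n.factorial (n * ε) T0) {α : Type} [Fintype α] (hα2 : 2 ≤ Fintype.card α)
    (hαn : Fintype.card α ≤ n) (a : α → L) :
    ∃ T : Finset Qbar, T.card ≤ bd n T0.card ∧ ∀ y ∈ SolM ι Γ ε a,
      ∃ j j', j ≠ j' ∧ ∃ c ∈ T, y j = c * y j' := by
  classical
  rcases (SolM ι Γ ε a).eq_empty_or_nonempty with hemp | ⟨y0, hy0⟩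
  · exact ⟨∅, by simp, fun y hy => by rw [hemp] at hy; exact hy.elim⟩
  set S := SolM ι Γ ε a with hS
  let Z : ℕ → Prop := fun m => ∀ R : Fin m → α → Qbar, (∀ i, R i ∈ S) → ∀ col : Fin m → α,
    (Matrix.of fun k i => R i (col k)).det = 0
  have hZ : ∃ m, Z m := ⟨Fintype.card α, fun R hR col => det_full hα2 R hR col⟩
  have hle : Nat.find hZ ≤ Fintype.card α := Nat.find_min' hZ fun R hR col => det_full hα2 R hR col
  have hZ0 : ¬ Z 0 := by
    intro h
    have h1 := h (fun i => i.elim0) (fun i => i.elim0) (fun i => i.elim0)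
    rw [Matrix.det_isEmpty] at h1
    exact one_ne_zero h1
  obtain ⟨m, hm⟩ : ∃ m, Nat.find hZ = m + 1 := by
    refine ⟨Nat.find hZ - 1, ?_⟩
    have : Nat.find hZ ≠ 0 := by
      intro h
      apply hZ0
      rw [← h]
      exact Nat.find_spec hZ
    omega
  have hZm1 : Z (m + 1) := by
    rw [← hm]
    exact Nat.find_spec hZ
  have hZm : ¬ Z m := Nat.find_min hZ (by omega)
  simp only [Z] at hZm
  push Not at hZm
  obtain ⟨R0, hR0, col0, hdet0⟩ := hZm
  have hcol0 : Function.Injective col0 := by
    intro k k' hkk
    by_contra hne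
    exact hdet0 (Matrix.det_zero_of_row_eq hne (by
      funext i
      simp [hkk]))
  obtain ⟨j0, hj0⟩ : ∃ j0, ∀ k, col0 k ≠ j0 := by
    by_contra hcon
    push Not at hcon
    have h1 : Function.Surjective col0 := hcon
    have h2 := Fintype.card_le_of_surjective col0 h1
    rw [Fintype.card_fin] at h2
    omega
  set cols : Fin (m + 1) → α := Fin.snoc col0 j0 with hcols
  have hcols_cs : ∀ i : Fin m, cols i.castSucc = col0 i := fun i => by
    rw [hcols, Fin.snoc_castSucc]
  have hcols_last : cols (Fin.last m) = j0 := by rw [hcols, Fin.snoc_last]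
  have hcinj : Function.Injective cols := by
    intro k k' hkk
    induction k using Fin.lastCases with
    | last =>
      induction k' using Fin.lastCases with
      | last => rfl
      | cast k' =>
        rw [hcols_last, hcols_cs] at hkk
        exact absurd hkk.symm (hj0 k')
    | cast k =>
      induction k' using Fin.lastCases with
      | last =>
        rw [hcols_last, hcols_cs] at hkk
        exact absurd hkk (hj0 k)
      | cast k' =>
        rw [hcols_cs, hcols_cs] at hkk
        rw [hcol0 hkk]
  have hmn : m + 1 ≤ n := by omega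
  have hfac : (m + 1).factorial ≤ n.factorial := Nat.factorial_le hmn
  let sg : Equiv.Perm (Fin (m + 1)) → Qbarˣ := fun σ =>
    Units.map (Int.castRingHom Qbar).toMonoidHom (Equiv.Perm.sign σ)
  have hsg : ∀ σ, (sg σ : Qbar) = ((Equiv.Perm.sign σ : ℤ) : Qbar) := fun σ => rfl
  let μ : Equiv.Perm (Fin (m + 1)) → Qbar := fun σ => (sg σ : Qbar) *
    ∏ i : Fin m, R0 i (cols (σ i.castSucc))
  have hμ : ∀ σ, μ σ ≠ 0 := fun σ => mul_ne_zero (sg σ).ne_zero
    (Finset.prod_ne_zero_iff.2 fun i _ => (hR0 i).1 _)
  refine ⟨(Finset.univ : Finset ((Equiv.Perm (Fin (m + 1)) × Equiv.Perm (Fin (m + 1))) × T0)).image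
    (fun p => (p.2 : Qbar) * (μ p.1.2 / μ p.1.1)), ?_, ?_⟩
  · refine Finset.card_image_le.trans ?_
    rw [Finset.card_univ, Fintype.card_prod, Fintype.card_prod, Fintype.card_perm,
      Fintype.card_fin, Fintype.card_coe]
    unfold bd
    rw [sq]
    gcongr
  · intro y hy
    set R : Fin (m + 1) → α → Qbar := Fin.snoc (α := fun _ => α → Qbar) R0 y with hR
    have hR_cs : ∀ i : Fin m, R i.castSucc = R0 i := fun i => by
      rw [hR]
      exact Fin.snoc_castSucc (α := fun _ => α → Qbar) _ _ _
    have hR_last : R (Fin.last m) = y := by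
      rw [hR]
      exact Fin.snoc_last (α := fun _ => α → Qbar) _ _
    have hRS : ∀ i, R i ∈ S := by
      intro i
      induction i using Fin.lastCases with
      | last => rw [hR_last]; exact hy
      | cast i => rw [hR_cs]; exact hR0 i
    have hdet := hZm1 R hRS cols
    set N : Matrix (Fin (m + 1)) (Fin (m + 1)) Qbar := Matrix.of fun k i => R i (cols k) with hN
    let z : Equiv.Perm (Fin (m + 1)) → Qbar := fun σ => (sg σ : Qbar) * ∏ i, R i (cols (σ i))
    have hzμ : ∀ σ, z σ = μ σ * y (cols (σ (Fin.last m))) := by
      intro σ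
      show (sg σ : Qbar) * ∏ i, R i (cols (σ i)) = _
      rw [Fin.prod_univ_castSucc, hR_last, ← mul_assoc]
      congr 2
      refine Finset.prod_congr rfl fun i _ => ?_
      rw [hR_cs]
    have hz0 : ∑ σ : Equiv.Perm (Fin (m + 1)), z σ = 0 := by
      rw [← hdet, Matrix.det_apply']
      rfl
    have hcardP : Fintype.card (Equiv.Perm (Fin (m + 1))) = (m + 1).factorial := by
      rw [Fintype.card_perm, Fintype.card_fin]
    have hzn : ∀ σ, z σ ≠ 0 := fun σ => by
      rw [hzμ]
      exact mul_ne_zero (hμ σ) (hy.1 _)
    have hzM : Mx Γ (n * ε) z := by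
      have h1 : Mx Γ ((Finset.univ : Finset (Fin (m + 1))).card * ε)
          (fun σ : Equiv.Perm (Fin (m + 1)) => ∏ i, R i (cols (σ i))) :=
        Mx.prod Finset.univ Finset.univ_nonempty
          (fun i (σ : Equiv.Perm (Fin (m + 1))) => R i (cols (σ i)))
          fun i _ => (hRS i).2.1.comp (fun σ : Equiv.Perm (Fin (m + 1)) => cols (σ i))
      refine (h1.smul sg fun σ => hull_sign Γ _).mono ?_
      rw [Finset.card_univ, Fintype.card_fin]
      have h5 : ((m + 1 : ℕ) : ℝ) ≤ n := by exact_mod_cast hmn
      exact mul_le_mul_of_nonneg_right h5 hε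
    obtain ⟨f, hf⟩ := coloring z hz0
    -- two permutations in one class
    obtain ⟨σ, σ', hne, heq⟩ : ∃ σ σ' : Equiv.Perm (Fin (m + 1)),
        σ (Fin.last m) ≠ σ' (Fin.last m) ∧ f σ = f σ' := by
      by_contra hcon
      push Not at hcon
      set F := (Finset.univ : Finset (Equiv.Perm (Fin (m + 1)))).filter
        (fun σ => σ (Fin.last m) = Fin.last m) with hF
      have h1 : ∑ σ ∈ F, z σ = 0 := by
        rw [← Finset.sum_fiberwise_of_maps_to (s := F) (t := F.image f)
          (g := f) (fun σ hσ => Finset.mem_image_of_mem _ hσ)]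
        refine Finset.sum_eq_zero fun w hw => ?_
        obtain ⟨σ0, hσ0, rfl⟩ := Finset.mem_image.1 hw
        rw [← (hf (f σ0)).1]
        refine Finset.sum_congr ?_ fun _ _ => rfl
        ext σ
        simp only [hF, Finset.mem_filter]
        constructor
        · rintro ⟨-, h⟩
          exact ⟨Finset.mem_univ _, h⟩
        · rintro ⟨-, h⟩
          refine ⟨⟨Finset.mem_univ _, ?_⟩, h⟩
          by_contra hne
          refine hcon σ σ0 ?_ h
          rw [(Finset.mem_filter.1 hσ0).2]
          exact hne
      have h2 := sum_last m N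
      have h3 : ∑ σ ∈ F, z σ =
          N (Fin.last m) (Fin.last m) * (N.submatrix Fin.castSucc Fin.castSucc).det := h2
      rw [h1] at h3
      rcases mul_eq_zero.1 h3.symm with h4 | h4
      · have h5 : N (Fin.last m) (Fin.last m) = y j0 := by
          show R (Fin.last m) (cols (Fin.last m)) = y j0
          rw [hR_last, hcols_last]
        rw [h5] at h4
        exact hy.1 j0 h4
      · apply hdet0
        rw [← h4]
        congr 1
        ext k i
        show R0 i (col0 k) = R i.castSucc (cols k.castSucc)
        rw [hR_cs, hcols_cs]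
    -- the ratio in the class
    let β := {τ : Equiv.Perm (Fin (m + 1)) // f τ = f σ}
    have hmap : ∀ A : Finset β, ∑ τ ∈ A, z τ.1 = ∑ τ ∈ A.map (Function.Embedding.subtype _), z τ :=
      fun A => by
        rw [Finset.sum_map]
        rfl
    have hu : (Finset.univ : Finset β).map (Function.Embedding.subtype _) =
        Finset.univ.filter (fun τ => f τ = f σ) := by
      ext τ
      simp [β]
    have hmem := hT0 β ((Fintype.card_subtype_le _).trans (by rw [hcardP]; exact hfac))
      (fun τ => z τ.1) (fun τ => hzn _) (hzM.comp (fun τ : β => τ.1)) (by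
        rw [hmap, hu]
        exact (hf (f σ)).1) (fun A hA hAu => by
        rw [hmap]
        refine (hf (f σ)).2 _ ?_ hA.map ?_
        · rw [← hu]
          exact Finset.map_subset_map.2 (Finset.subset_univ _)
        · rw [← hu]
          intro h
          exact hAu (Finset.map_injective _ h)) ⟨σ, rfl⟩ ⟨σ', heq.symm⟩
    refine ⟨cols (σ (Fin.last m)), cols (σ' (Fin.last m)), fun h => hne (hcinj h),
      y (cols (σ (Fin.last m))) / y (cols (σ' (Fin.last m))), ?_, ?_⟩
    · rw [Finset.mem_image]
      refine ⟨((σ, σ'), ⟨z σ / z σ', hmem⟩), Finset.mem_univ _, ?_⟩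
      show z σ / z σ' * (μ σ' / μ σ) = _
      rw [hzμ, hzμ]
      have h1 := hμ σ
      have h2 := hμ σ'
      have h3 := hy.1 (cols (σ' (Fin.last m)))
      field_simp
    · rw [div_mul_cancel₀ _ (hy.1 _)]

/-- **Uniform bound for the number of nondegenerate solutions of small height of a linear
equation with arbitrary coefficients.** -/
theorem uniform (n : ℕ) (Γ : Subgroup Qbarˣ) (ε : ℝ) (hε : 0 ≤ ε) (T0 : Finset Qbar)
    (hT0 : Ratios Γ n.factorial (n * ε) T0) (hT1 : 1 ≤ T0.card) :
    ∀ (k : ℕ) (α : Type) [Fintype α], Fintype.card α = k → k ≤ n →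
    ∀ (L : Type) [Field L] (ι : Qbar →+* L) (a : α → L),
      (Rt '' SolM ι Γ ε a).encard ≤ (((n ^ 2 * bd n T0.card) ^ k : ℕ) : ℕ∞) := by
  classical
  intro k
  induction k with
  | zero =>
    intro α _ hα _ L _ ι a
    have hemp : IsEmpty α := Fintype.card_eq_zero_iff.1 hα
    have h1 : (Rt '' SolM ι Γ ε a).Subsingleton := by
      intro x _ y _
      funext p
      exact (hemp.false p.1).elim
    refine (Set.encard_le_one_iff.2 fun x y hx hy => h1 hx hy).trans ?_
    simp
  | succ k ih =>
    intro α _ hα hk L _ ι a
    have hn1 : 1 ≤ n := by omega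
    have hb : 1 ≤ n ^ 2 * bd n T0.card := by
      have h1 : 0 < n ^ 2 := by positivity
      have h2 : 0 < bd n T0.card := by
        unfold bd
        have := Nat.factorial_pos n
        have : 0 < T0.card := hT1
        positivity
      exact Nat.mul_pos h1 h2
    rcases Nat.lt_or_ge (Fintype.card α) 2 with hα2 | hα2
    · have hss : Subsingleton α := Fintype.card_le_one_iff_subsingleton.1 (by omega)
      have h1 : (Rt '' SolM ι Γ ε a).Subsingleton := by
        rintro _ ⟨y, hy, rfl⟩ _ ⟨y', hy', rfl⟩
        funext p
        have hp : p.1 = p.2 := Subsingleton.elim _ _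
        unfold Rt
        rw [hp, div_self (hy.1 _), div_self (hy'.1 _)]
      refine (Set.encard_le_one_iff.2 fun x y hx hy => h1 hx hy).trans ?_
      have : 1 ≤ (n ^ 2 * bd n T0.card) ^ (k + 1) := Nat.one_le_pow _ _ hb
      exact_mod_cast this
    · obtain ⟨T, hT, hstep⟩ := step n ι Γ ε hε T0 hT0 hα2 (by omega) a
      -- the reconstruction
      let I := {p : (α × α) × T // p.1.1 ≠ p.1.2}
      let rec_ : ∀ q : I, ({i // i ≠ q.1.1.1} × {i // i ≠ q.1.1.1} → Qbar) → (α × α → Qbar) :=
        fun q ρ p => (if h : p.1 ≠ q.1.1.1 then ρ (⟨p.1, h⟩, ⟨q.1.1.2, fun h => q.2 h.symm⟩)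
            else (q.1.2 : Qbar)) /
          (if h : p.2 ≠ q.1.1.1 then ρ (⟨p.2, h⟩, ⟨q.1.1.2, fun h => q.2 h.symm⟩)
            else (q.1.2 : Qbar))
      let coef : ∀ q : I, {i // i ≠ q.1.1.1} → L := fun q i =>
        if i.1 = q.1.1.2 then a i.1 + a q.1.1.1 * ι q.1.2 else a i.1
      have hcard : ∀ q : I, Fintype.card {i // i ≠ q.1.1.1} = k := by
        intro q
        rw [Fintype.card_subtype_compl, hα, Fintype.card_subtype_eq]
        omega
      have hcov : Rt '' SolM ι Γ ε a ⊆
          ⋃ q : I, rec_ q '' (Rt '' SolM ι Γ ε (coef q)) := by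
        rintro _ ⟨y, hy, rfl⟩
        obtain ⟨j, j', hjj, c, hc, hyc⟩ := hstep y hy
        rw [Set.mem_iUnion]
        refine ⟨⟨((j, j'), ⟨c, hc⟩), hjj⟩, _, ⟨fun i => y i.1, ?_, rfl⟩, ?_⟩
        · -- the equation with `k` terms
          have hkey : ∀ A : Finset {i // i ≠ j}, ∃ B : Finset α, (A.Nonempty → B.Nonempty) ∧
              (A ≠ Finset.univ → B ≠ Finset.univ) ∧ (A = Finset.univ → B = Finset.univ) ∧
              ∑ i ∈ A, coef ⟨((j, j'), ⟨c, hc⟩), hjj⟩ i * ι (y i.1) = ∑ i ∈ B, a i * ι (y i) := by
            intro A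
            set j2 : {i // i ≠ j} := ⟨j', fun h => hjj h.symm⟩ with hj2
            have hmap : ∀ A : Finset {i // i ≠ j}, ∑ i ∈ A, a i.1 * ι (y i.1) =
                ∑ i ∈ A.map (Function.Embedding.subtype _), a i * ι (y i) := by
              intro A
              rw [Finset.sum_map]
              rfl
            have hnot : ∀ A : Finset {i // i ≠ j}, j ∉ A.map (Function.Embedding.subtype _) := by
              intro A h
              obtain ⟨i, _, hi⟩ := Finset.mem_map.1 h
              exact i.2 hi
            by_cases hA : j2 ∈ A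
            · refine ⟨insert j (A.map (Function.Embedding.subtype _)), fun _ => ⟨j, by simp⟩, ?_, ?_,
                ?_⟩
              · intro hne h
                apply hne
                ext i
                refine ⟨fun _ => Finset.mem_univ _, fun _ => ?_⟩
                have h1 : (i : α) ∈ insert j (A.map (Function.Embedding.subtype _)) := by
                  rw [h]
                  exact Finset.mem_univ _
                rcases Finset.mem_insert.1 h1 with h2 | h2
                · exact absurd h2 i.2
                · obtain ⟨i', hi', hii⟩ := Finset.mem_map.1 h2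
                  have : i' = i := Subtype.ext hii
                  rwa [← this]
              · rintro rfl
                ext i
                refine ⟨fun _ => Finset.mem_univ _, fun _ => ?_⟩
                by_cases hi : i = j
                · rw [hi]; exact Finset.mem_insert_self _ _
                · exact Finset.mem_insert_of_mem (Finset.mem_map.2 ⟨⟨i, hi⟩, Finset.mem_univ _, rfl⟩)
              · rw [Finset.sum_insert (hnot A), ← hmap, ← Finset.add_sum_erase A _ hA,
                  ← Finset.add_sum_erase A (fun i => a i.1 * ι (y i.1)) hA]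
                have h1 : ∑ i ∈ A.erase j2, coef ⟨((j, j'), ⟨c, hc⟩), hjj⟩ i * ι (y i.1) =
                    ∑ i ∈ A.erase j2, a i.1 * ι (y i.1) := by
                  refine Finset.sum_congr rfl fun i hi => ?_
                  have hne : i.1 ≠ j' := fun h => (Finset.ne_of_mem_erase hi) (Subtype.ext h)
                  show (if i.1 = j' then _ else _) * _ = _
                  rw [if_neg hne]
                rw [h1]
                have h2 : coef ⟨((j, j'), ⟨c, hc⟩), hjj⟩ j2 = a j' + a j * ι c := by
                  show (if j' = j' then _ else _) = _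
                  rw [if_pos rfl]
                rw [h2, hyc, map_mul]
                ring
            · refine ⟨A.map (Function.Embedding.subtype _), fun h => h.map, ?_, ?_, ?_⟩
              · intro _ h
                apply hnot A
                rw [h]
                exact Finset.mem_univ _
              · rintro rfl
                exact absurd (Finset.mem_univ _) hA
              · rw [← hmap]
                refine Finset.sum_congr rfl fun i hi => ?_
                have hne : i.1 ≠ j' := by
                  intro h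
                  apply hA
                  rwa [show j2 = i from Subtype.ext h.symm]
                show (if i.1 = j' then _ else _) * _ = _
                rw [if_neg hne]
          refine ⟨fun i => hy.1 _, ?_, ?_, ?_⟩
          · exact hy.2.1.comp (fun i : {i // i ≠ j} => i.1)
          · obtain ⟨B, -, -, h3, h4⟩ := hkey Finset.univ
            rw [h4, h3 rfl]
            exact hy.2.2.1
          · intro A hA hAu
            obtain ⟨B, h1, h2, -, h4⟩ := hkey A
            rw [h4]
            exact hy.2.2.2 B (h1 hA) (h2 hAu)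
        · funext p
          have hyj' := hy.1 j'
          have hval : ∀ i : α, (if h : i ≠ j then
              Rt (fun i : {i // i ≠ j} => y i.1) (⟨i, h⟩, ⟨j', fun h => hjj h.symm⟩) else c) =
              y i / y j' := by
            intro i
            by_cases hi : i = j
            · rw [dif_neg (by simpa using hi), hi, hyc, mul_div_cancel_right₀ _ hyj']
            · rw [dif_pos hi]
              rfl
          show (if h : p.1 ≠ j then _ else _) / (if h : p.2 ≠ j then _ else _) = _
          rw [hval, hval]
          unfold Rt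
          rw [div_div_div_cancel_right₀ hyj']
      refine (encard_le_mul _ _ ((n ^ 2 * bd n T0.card) ^ k) hcov ?_).trans ?_
      · intro q
        refine (Set.encard_image_le _ _).trans ?_
        exact ih _ (hcard q) (by omega) L ι (coef q)
      · have hI : Nat.card I ≤ n ^ 2 * bd n T0.card := by
          rw [Nat.card_eq_fintype_card]
          refine (Fintype.card_subtype_le _).trans ?_
          rw [Fintype.card_prod, Fintype.card_prod, Fintype.card_coe, hα, sq]
          exact Nat.mul_le_mul (Nat.mul_le_mul hk hk) hT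
        have h1 : Nat.card I * (n ^ 2 * bd n T0.card) ^ k ≤ (n ^ 2 * bd n T0.card) ^ (k + 1) := by
          rw [pow_succ, mul_comm]
          exact Nat.mul_le_mul le_rfl hI
        exact_mod_cast h1

end Pool.Agent.Q51.UN
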