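import Mathlib
import Pool.Agent.Q51.UN.Uni
import Pool.Agent.Y215.SP.Off

set_option autoImplicit false

/-! # The number of points with multipliers near a group of finite rank, uniformly -/

namespace Pool.Agent.Q51.UN

open Finset MvPolynomial Pool.Agent.Helper259.AbsHt Pool.Agent.H533R3.SL Pool.Agent.Y215.SP
open Pool.Agent.Y215.SK (DivHull)

variable {n N r : ℕ}

theorem Mx.monomials {Γ : Subgroup Qbarˣ} {ε : ℝ} (hε : 0 < ε) {A : Type} [Finite A] (d e : ℕ) (hd : 1 ≤ d)
    (he : e ≤ d) (m : A → Fin r → ℕ) (hm : ∀ a, ∑ j, m a j = e) {t : Fin r → Qbar}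
    (ht : Mx Γ (ε / d) t) : Mx Γ ε (fun a => ∏ j, t j ^ m a j) := by
  classical
  obtain ⟨u, s, hu, hs, hy⟩ := ht
  refine ⟨fun a => ∏ j, u j ^ m a j, fun a => ∏ j, s j ^ m a j, fun a =>
    hull_prod Γ _ _ fun j _ => hull_pow Γ (hu j) _, ?_, fun a => ?_⟩
  · have h1 := height_monomials (A := A) e m hm s
    refine lt_of_le_of_lt h1 ?_
    have hd0 : (0 : ℝ) < d := by exact_mod_cast hd
    have h2 : (e : ℝ) ≤ d := by exact_mod_cast he
    have h3 : 0 ≤ absLogHeight s := absLogHeight_nonneg s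
    calc (e : ℝ) * absLogHeight s ≤ d * absLogHeight s := mul_le_mul_of_nonneg_right h2 h3
      _ < d * (ε / d) := mul_lt_mul_of_pos_left hs hd0
      _ = ε := by field_simp
  · show ∏ j, t j ^ m a j = _
    rw [Units.coe_prod, ← Finset.prod_mul_distrib]
    refine Finset.prod_congr rfl fun j _ => ?_
    rw [hy j, mul_pow, Units.val_pow_eq_pow_val]

section

variable {k L : Type} [Field k] [Field L] [Algebra k L]

/-- the number of ratio vectors -/
def BM (τ d r : ℕ) : ℕ := (((d + 1) ^ r) ^ 2 * bd ((d + 1) ^ r) τ) ^ ((d + 1) ^ r)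

/-- codes for the ratios of the monomials in a class -/
theorem exists_ratio_code (ι : Qbar →+* L) (Γ : Subgroup Qbarˣ) (ε : ℝ) (hε : 0 < ε) (T0 : Finset Qbar)
    (v : Fin r → Fin (n + 1) → L)
    (F : MvPolynomial (Fin (n + 1)) k) (d : ℕ) (hd : 1 ≤ d) (e : ℕ) (he : e ≤ d)
    (hF : F.IsHomogeneous e)
    (hT0 : Ratios Γ ((d + 1) ^ r).factorial (((d + 1) ^ r : ℕ) * ε) T0) (hT1 : 1 ≤ T0.card)
    (f : Sp v F → Sp v F) (c : Sp v F) :
    ∃ g : (Fin r → Qbar) → Fin (BM T0.card d r),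
      ∀ t t' : Fin r → Qbar, (∀ j, t j ≠ 0) → (∀ j, t' j ≠ 0) →
        Mx Γ (ε / d) t → Mx Γ (ε / d) t' →
        Col ι v F t f → Col ι v F t' f → g t = g t' →
        ∀ α β : Sp v F, f α = c → f β = c →
          (∏ j, t j ^ ((α : Fin r →₀ ℕ) j)) / (∏ j, t j ^ ((β : Fin r →₀ ℕ) j)) =
          (∏ j, t' j ^ ((α : Fin r →₀ ℕ) j)) / (∏ j, t' j ^ ((β : Fin r →₀ ℕ) j)) := by
  classical
  set m := (d + 1) ^ r with hm
  have hm1 : 1 ≤ m := Nat.one_le_pow _ _ (by omega)
  have hb1 : 1 ≤ m ^ 2 * bd m T0.card := by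
    have : 0 < bd m T0.card := by
      unfold bd
      have : 0 < T0.card := hT1
      have := Nat.factorial_pos m
      positivity
    have h2 : 0 < m ^ 2 := by positivity
    exact Nat.succ_le_of_lt (Nat.mul_pos h2 this)
  have hB1 : 1 ≤ BM T0.card d r := Nat.one_le_pow _ _ hb1
  let T := {α : Sp v F // f α = c}
  let a : T → L := fun α => coeff (α.1 : Fin r →₀ ℕ) (GU v F)
  let y : (Fin r → Qbar) → T → Qbar := fun t α => ∏ j, t j ^ ((α.1 : Fin r →₀ ℕ) j)
  have hcard : Fintype.card T ≤ m := by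
    refine (Fintype.card_subtype_le _).trans ?_
    rw [Fintype.card_coe]
    exact card_supp v F e d he hF
  have hset : (Rt '' SolM ι Γ ε a).encard ≤ (BM T0.card d r : ℕ) := by
    refine (uniform m Γ ε hε.le T0 hT0 hT1 _ T rfl hcard L ι a).trans ?_
    exact_mod_cast Nat.pow_le_pow_right hb1 hcard
  obtain ⟨g, hg⟩ := exists_enc _ _ hB1 hset
  refine ⟨fun t => g (Rt (y t)), ?_⟩
  have hsol : ∀ t : Fin r → Qbar, (∀ j, t j ≠ 0) → Mx Γ (ε / d) t →
      Col ι v F t f → y t ∈ SolM ι Γ ε a := by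
    intro t ht hth hcol
    have hmap : ∀ A : Finset T, ∑ α ∈ A, a α * ι (y t α) =
        ∑ α ∈ A.map (Function.Embedding.subtype _),
          coeff (α : Fin r →₀ ℕ) (GU v F) * ∏ j, ι (t j) ^ ((α : Fin r →₀ ℕ) j) := by
      intro A
      rw [Finset.sum_map]
      refine Finset.sum_congr rfl fun α _ => ?_
      show a α * ι (∏ j, t j ^ ((α.1 : Fin r →₀ ℕ) j)) = _
      rw [map_prod]
      simp_rw [map_pow]
      rfl
    have hu : (Finset.univ : Finset T).map (Function.Embedding.subtype _) =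
        Finset.univ.filter (fun α => f α = c) := by
      ext α
      simp [T]
    refine ⟨fun α => Finset.prod_ne_zero_iff.2 fun j _ => pow_ne_zero _ (ht j), ?_, ?_, ?_⟩
    · exact Mx.monomials hε d e hd he (fun (α : T) j => (α.1 : Fin r →₀ ℕ) j)
        (fun α => GU_homog v F e hF _ α.1.2) hth
    · rw [hmap, hu]
      exact (hcol c).1
    · intro A hA hAu
      rw [hmap]
      refine (hcol c).2 _ ?_ (hA.map) ?_
      · rw [← hu]
        exact Finset.map_subset_map.2 (Finset.subset_univ _)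
      · rw [← hu]
        intro h
        exact hAu (Finset.map_injective _ h)
  intro t t' ht ht' hth hth' hcol hcol' hgg α β hα hβ
  have h1 := hg _ ⟨_, hsol t ht hth hcol, rfl⟩ _ ⟨_, hsol t' ht' hth' hcol', rfl⟩ hgg
  exact congrFun h1 (⟨α, hα⟩, ⟨β, hβ⟩)

end

/-- the points `∑ t_j v_j` with multipliers of height less than `ε`, different from zero,
on `P = 0` and off `G = 0` -/
def Off0M {k L : Type} [Field k] [Field L] [Algebra k L] (ι : Qbar →+* L)
    (P : Fin N → MvPolynomial (Fin (n + 1)) k) (G : MvPolynomial (Fin (n + 1)) k)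
    (Γ : Subgroup Qbarˣ) (ε : ℝ)
    (v : Fin r → Fin (n + 1) → L) : Set (Projectivization L (Fin (n + 1) → L)) :=
  {p | ∃ t : Fin r → Qbar, (∀ j, t j ≠ 0) ∧ Mx Γ ε t ∧
    (∀ i, aeval (pt ι v t) (P i) = 0) ∧ aeval (pt ι v t) G ≠ 0 ∧
    ∃ h : pt ι v t ≠ 0, p = Projectivization.mk L (pt ι v t) h}

/-- the bound -/
noncomputable def MM (τ N d r : ℕ) : ℕ :=
  ((((d + 1) ^ r) ^ ((d + 1) ^ r)) * BM τ d r ^ ((d + 1) ^ r)) ^ N * ((r + 1) * Euni d r ^ r)

theorem card_off0M {k : Type} [Field k] (P : Fin N → MvPolynomial (Fin (n + 1)) k) (d : ℕ)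
    (hd : 1 ≤ d) (hP : ∀ i, ∃ e, e ≤ d ∧ (P i).IsHomogeneous e)
    (G : MvPolynomial (Fin (n + 1)) k)
    {L : Type} [Field L] [Algebra k L]
    (ι : Qbar →+* L) (Γ : Subgroup Qbarˣ) (ε : ℝ) (hε : 0 < ε) (T0 : Finset Qbar)
    (hT0 : Ratios Γ ((d + 1) ^ r).factorial (((d + 1) ^ r : ℕ) * ε) T0) (hT1 : 1 ≤ T0.card)
    (v : Fin r → Fin (n + 1) → L)
    (hG : ∀ (s : Fin r → L) (l : Fin r → ℕ),
        (∀ i, MvPolynomial.aeval (cur (fun j i => s j * v j i) l) (P i) = 0) →
        (∃ i i', cur (fun j i => s j * v j i) l i * Polynomial.C (∑ j, s j * v j i') ≠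
          cur (fun j i => s j * v j i) l i' * Polynomial.C (∑ j, s j * v j i)) →
        MvPolynomial.aeval (fun i => ∑ j, s j * v j i) G = 0) :
    (Off0M ι P G Γ (ε / d) v).encard ≤ (MM T0.card N d r : ℕ∞) := by
  classical
  choose e0 he0 hPe using hP
  set m := (d + 1) ^ r with hm
  have hm1 : 1 ≤ m := Nat.one_le_pow _ _ (by omega)
  -- codes
  choose g hg using fun (i : Fin N) (f : Sp v (P i) → Sp v (P i)) (c : Sp v (P i)) =>
    exists_ratio_code ι Γ ε hε T0 v (P i) d hd (e0 i) (he0 i) (hPe i) hT0 hT1 f c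
  obtain ⟨re, hre⟩ := exists_root_code (Euni d r) (Euni_pos d r)
  -- exponents
  choose lf hlf hgen using fun (f : ∀ i, Sp v (P i) → Sp v (P i)) =>
    exists_gen (Wf P v f) (Wf_sum P (fun i => ⟨_, hPe i⟩) v f)
  -- multipliers of a point
  have hch : ∀ p : Projectivization L (Fin (n + 1) → L), ∃ t : Fin r → Qbar,
      p ∈ Off0M ι P G Γ (ε / d) v → (∀ j, t j ≠ 0) ∧ Mx Γ (ε / d) t ∧
        (∀ i, aeval (pt ι v t) (P i) = 0) ∧ aeval (pt ι v t) G ≠ 0 ∧
        ∃ h : pt ι v t ≠ 0, p = Projectivization.mk L (pt ι v t) h := by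
    intro p
    by_cases hp : p ∈ Off0M ι P G Γ (ε / d) v
    · obtain ⟨t, ht⟩ := hp
      exact ⟨t, fun _ => ht⟩
    · exact ⟨0, fun h => absurd h hp⟩
  choose tt htt using hch
  -- colorings
  have hcol : ∀ (p : Projectivization L (Fin (n + 1) → L)) (i : Fin N),
      ∃ f : Sp v (P i) → Sp v (P i), p ∈ Off0M ι P G Γ (ε / d) v → Col ι v (P i) (tt p) f := by
    intro p i
    by_cases hp : p ∈ Off0M ι P G Γ (ε / d) v
    · obtain ⟨f, hf⟩ := exists_col ι v (P i) (tt p) ((htt p hp).2.2.1 i)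
      exact ⟨f, fun _ => hf⟩
    · exact ⟨id, fun h => absurd h hp⟩
  choose ff hff using hcol
  -- the point is proportional to the partial sums
  have hprop : ∀ p ∈ Off0M ι P G Γ (ε / d) v, ∀ (w : ℕ) (a b : Fin (n + 1)),
      (∑ j ∈ Finset.univ.filter (fun j => lf (ff p) j = w), ι (tt p j) * v j a) *
        pt ι v (tt p) b =
      (∑ j ∈ Finset.univ.filter (fun j => lf (ff p) j = w), ι (tt p j) * v j b) *
        pt ι v (tt p) a := by
    intro p hp w a b
    refine part_prop (fun j i => ι (tt p j) * v j i) (lf (ff p)) ?_ w a b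
    by_contra hne
    push Not at hne
    apply (htt p hp).2.2.2.1
    refine hG (fun j => ι (tt p j)) (lf (ff p)) ?_ hne
    intro i
    refine cur_zero (fun j => ι (tt p j)) v (P i) (lf (ff p)) (ff p i)
      (fun c => ?_) ?_
    · exact (hff p i hp c).1
    · intro α β hαβ
      have h1 := hlf (ff p) _ ⟨i, α, β, hαβ, rfl⟩
      have h2 : ∑ j, ((lf (ff p) j : ℕ) : ℤ) * ((((α : Fin r →₀ ℕ) j : ℕ) : ℤ) -
          (((β : Fin r →₀ ℕ) j : ℕ) : ℤ)) = 0 := h1
      simp_rw [mul_sub] at h2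
      rw [Finset.sum_sub_distrib, sub_eq_zero] at h2
      have h3 : ((∑ j, (α : Fin r →₀ ℕ) j * lf (ff p) j : ℕ) : ℤ) =
          ((∑ j, (β : Fin r →₀ ℕ) j * lf (ff p) j : ℕ) : ℤ) := by
        push_cast
        simp_rw [mul_comm _ ((lf (ff p) _ : ℕ) : ℤ)]
        exact h2
      exact_mod_cast h3
  -- a class with nonzero partial sum
  have hj0 : ∀ p, ∃ j0 : Option (Fin r), p ∈ Off0M ι P G Γ (ε / d) v → ∃ j1, j0 = some j1 ∧
      ∃ a, ∑ j ∈ Finset.univ.filter (fun j => lf (ff p) j = lf (ff p) j1),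
        ι (tt p j) * v j a ≠ 0 := by
    intro p
    by_cases hp : p ∈ Off0M ι P G Γ (ε / d) v
    · obtain ⟨h0, -⟩ := (htt p hp).2.2.2.2
      obtain ⟨a, ha⟩ := Function.ne_iff.1 h0
      have h1 : ∑ w ∈ Finset.univ.image (lf (ff p)), ∑ j ∈ Finset.univ.filter
          (fun j => lf (ff p) j = w), ι (tt p j) * v j a ≠ 0 := by
        rw [Finset.sum_fiberwise_of_maps_to (fun j _ => Finset.mem_image_of_mem _ (Finset.mem_univ j))]
        exact ha
      obtain ⟨w, hw, hw0⟩ := Finset.exists_ne_zero_of_sum_ne_zero h1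
      obtain ⟨j1, _, rfl⟩ := Finset.mem_image.1 hw
      exact ⟨some j1, fun _ => ⟨j1, rfl, a, hw0⟩⟩
    · exact ⟨none, fun h => absurd h hp⟩
  choose j0 hj0 using hj0
  -- the data
  let D : Projectivization L (Fin (n + 1) → L) →
      ((∀ i : Fin N, (Sp v (P i) → Sp v (P i)) × (Sp v (P i) → Fin (BM T0.card d r))) ×
        (Option (Fin r) × (Fin r → Fin (Euni d r)))) := fun p =>
    (fun i => (ff p i, fun c => g i (ff p i) c (tt p)),
      (j0 p, fun j => re (tt p j / (j0 p).elim 1 (tt p))))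
  have hinj : ∀ p ∈ Off0M ι P G Γ (ε / d) v, ∀ q ∈ Off0M ι P G Γ (ε / d) v,
      D p = D q → p = q := by
    intro p hp q hq hD
    have hf : ff p = ff q := by
      funext i
      have h1 := congrFun (congrArg Prod.fst hD) i
      exact congrArg Prod.fst h1
    have hcode : ∀ i c, g i (ff p i) c (tt p) = g i (ff q i) c (tt q) := by
      intro i c
      have h1 := congrFun (congrArg Prod.fst hD) i
      exact congrFun (congrArg Prod.snd h1) c
    have hjj : j0 p = j0 q := congrArg Prod.fst (congrArg Prod.snd hD)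
    have hroot : ∀ j, re (tt p j / (j0 p).elim 1 (tt p)) =
        re (tt q j / (j0 q).elim 1 (tt q)) := fun j =>
      congrFun (congrArg Prod.snd (congrArg Prod.snd hD)) j
    obtain ⟨hpt, hph, hpz, hpG, hp0, hpm⟩ := htt p hp
    obtain ⟨hqt, hqh, hqz, hqG, hq0, hqm⟩ := htt q hq
    obtain ⟨j1, hj1, a0, ha0⟩ := hj0 p hp
    -- characters agree on `Wf`
    have hchr : ∀ w ∈ Wf P v (ff p), chr (tt p) w = chr (tt q) w := by
      rintro _ ⟨i, α, β, hαβ, rfl⟩
      have hcq : Col ι v (P i) (tt q) (ff p i) := by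
        rw [hf]
        exact hff q i hq
      have h1 := hg i (ff p i) (ff p i β) (tt p) (tt q) hpt hqt hph hqh (hff p i hp) hcq
        (by rw [hcode i]; rw [hf]) α β hαβ rfl
      have h2 : ∀ s : Fin r → Qbar, (∀ j, s j ≠ 0) →
          chr s (fun j => (((α : Fin r →₀ ℕ) j : ℕ) : ℤ) - (((β : Fin r →₀ ℕ) j : ℕ) : ℤ)) =
          (∏ j, s j ^ ((α : Fin r →₀ ℕ) j)) / (∏ j, s j ^ ((β : Fin r →₀ ℕ) j)) := by
        intro s hs
        unfold chr
        rw [← Finset.prod_div_distrib]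
        refine Finset.prod_congr rfl fun j _ => ?_
        rw [zpow_sub₀ (hs j), zpow_natCast, zpow_natCast]
      rw [h2 _ hpt, h2 _ hqt]
      exact h1
    -- the ratios in the class agree
    have hrat : ∀ j, lf (ff p) j = lf (ff p) j1 → tt p j / tt p j1 = tt q j / tt q j1 := by
      intro j hj
      have h1 := hroot j
      rw [← hjj, hj1] at h1
      refine hre _ _ ?_ h1
      show (tt p j / tt p j1) ^ Euni d r = (tt q j / tt q j1) ^ Euni d r
      rw [← chr_single _ hpt, ← chr_single _ hqt]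
      refine chr_closure _ _ hpt hqt (Wf P v (ff p)) hchr _ ?_
      obtain ⟨Q, hQ⟩ := Wf_eq_WQ P d (fun i => ⟨e0 i, he0 i, hPe i⟩) v (ff p)
      rw [← hQ]
      refine Euni_spec d Q j j1 ?_
      rw [hQ]
      rcases dichot (Wf P v (ff p)) (Pi.single j 1 - Pi.single j1 1) with ⟨l', hl', hne⟩ | h
      · exfalso
        apply hne
        have h2 := hgen (ff p) j j1 hj l' hl'
        simp only [Pi.sub_apply, mul_sub, Finset.sum_sub_distrib, Pi.single_apply, mul_ite,
          mul_one, mul_zero, Finset.sum_ite_eq', Finset.mem_univ, if_true]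
        rw [h2, sub_self]
      · exact h
    -- partial sums are proportional
    set Sp' : Fin (n + 1) → L := fun a =>
      ∑ j ∈ Finset.univ.filter (fun j => lf (ff p) j = lf (ff p) j1), ι (tt p j) * v j a with hSp
    set Sq' : Fin (n + 1) → L := fun a =>
      ∑ j ∈ Finset.univ.filter (fun j => lf (ff p) j = lf (ff p) j1), ι (tt q j) * v j a with hSq
    have hSpq : ∀ a, Sp' a * ι (tt q j1) = Sq' a * ι (tt p j1) := by
      intro a
      rw [hSp, hSq]
      simp only
      rw [Finset.sum_mul, Finset.sum_mul]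
      refine Finset.sum_congr rfl fun j hj => ?_
      have h1 := hrat j (Finset.mem_filter.1 hj).2
      rw [div_eq_div_iff (hpt j1) (hqt j1)] at h1
      have h2 := congrArg ι h1
      rw [map_mul, map_mul] at h2
      calc ι (tt p j) * v j a * ι (tt q j1) = (ι (tt p j) * ι (tt q j1)) * v j a := by ring
        _ = ι (tt q j) * v j a * ι (tt p j1) := by rw [h2]; ring
    have hιp : ι (tt p j1) ≠ 0 := (map_ne_zero ι).2 (hpt j1)
    have hιq : ι (tt q j1) ≠ 0 := (map_ne_zero ι).2 (hqt j1)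
    have hSp0 : Sp' a0 ≠ 0 := ha0
    have hSq0 : Sq' a0 ≠ 0 := by
      intro h
      have h1 := hSpq a0
      rw [h, zero_mul] at h1
      exact (mul_ne_zero hSp0 hιq) h1
    have hpp : ∀ a b, Sp' a * pt ι v (tt p) b = Sp' b * pt ι v (tt p) a :=
      fun a b => hprop p hp _ a b
    have hqq : ∀ a b, Sq' a * pt ι v (tt q) b = Sq' b * pt ι v (tt q) a := by
      intro a b
      have h1 := hprop q hq (lf (ff p) j1) a b
      rw [← hf] at h1
      exact h1
    have hxa : pt ι v (tt p) a0 ≠ 0 := by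
      intro h
      apply hp0
      funext b
      have h1 := hpp a0 b
      rw [h, mul_zero] at h1
      exact (mul_eq_zero.1 h1).resolve_left hSp0
    have hya : pt ι v (tt q) a0 ≠ 0 := by
      intro h
      apply hq0
      funext b
      have h1 := hqq a0 b
      rw [h, mul_zero] at h1
      exact (mul_eq_zero.1 h1).resolve_left hSq0
    rw [hpm, hqm, Projectivization.mk_eq_mk_iff']
    refine ⟨pt ι v (tt p) a0 / pt ι v (tt q) a0, ?_⟩
    funext b
    rw [Pi.smul_apply, smul_eq_mul]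
    have h1 := hpp a0 b
    have h2 := hqq a0 b
    have h3 : pt ι v (tt p) b = Sp' b * pt ι v (tt p) a0 / Sp' a0 := by
      rw [← h1]; field_simp
    have h4 : pt ι v (tt q) b = Sq' b * pt ι v (tt q) a0 / Sq' a0 := by
      rw [← h2]; field_simp
    have h5 : Sq' b * Sp' a0 = Sp' b * Sq' a0 := by
      have h6 := hSpq b
      have h7 := hSpq a0
      have h8 : (Sq' b * Sp' a0) * (ι (tt p j1) * ι (tt q j1)) =
          (Sp' b * Sq' a0) * (ι (tt p j1) * ι (tt q j1)) := by
        calc (Sq' b * Sp' a0) * (ι (tt p j1) * ι (tt q j1)) =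
            (Sq' b * ι (tt p j1)) * (Sp' a0 * ι (tt q j1)) := by ring
          _ = (Sp' b * ι (tt q j1)) * (Sq' a0 * ι (tt p j1)) := by rw [h6, h7]
          _ = _ := by ring
      exact mul_right_cancel₀ (mul_ne_zero hιp hιq) h8
    rw [h3, h4]
    field_simp
    linear_combination h5
  refine (encard_le_of_data _ D hinj).trans ?_
  have hB1 : 1 ≤ BM T0.card d r := by
    unfold BM
    refine Nat.one_le_pow _ _ (Nat.mul_pos (by positivity) ?_)
    unfold bd
    have : 0 < T0.card := hT1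
    have := Nat.factorial_pos ((d + 1) ^ r)
    positivity
  have hc : Fintype.card ((∀ i : Fin N, (Sp v (P i) → Sp v (P i)) ×
      (Sp v (P i) → Fin (BM T0.card d r))) × (Option (Fin r) × (Fin r → Fin (Euni d r)))) ≤
      MM T0.card N d r := by
    rw [Fintype.card_prod, Fintype.card_prod, Fintype.card_option, Fintype.card_fun,
      Fintype.card_fin, Fintype.card_fin]
    unfold MM
    refine Nat.mul_le_mul_right _ ?_
    rw [Fintype.card_pi]
    have h1 : ∀ i ∈ (Finset.univ : Finset (Fin N)),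
        Fintype.card ((Sp v (P i) → Sp v (P i)) × (Sp v (P i) → Fin (BM T0.card d r))) ≤
        (((d + 1) ^ r) ^ ((d + 1) ^ r)) * BM T0.card d r ^ ((d + 1) ^ r) := by
      intro i _
      have h2 : Fintype.card (Sp v (P i)) ≤ m := by
        rw [Fintype.card_coe]
        exact card_supp v (P i) (e0 i) d (he0 i) (hPe i)
      rw [Fintype.card_prod, Fintype.card_fun, Fintype.card_fun, Fintype.card_fin]
      refine Nat.mul_le_mul ?_ (Nat.pow_le_pow_right hB1 h2)
      exact (Nat.pow_le_pow_left h2 _).trans (Nat.pow_le_pow_right hm1 h2)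
    refine (Finset.prod_le_prod' h1).trans ?_
    rw [Finset.prod_const, Finset.card_univ, Fintype.card_fin]
  exact_mod_cast hc

end Pool.Agent.Q51.UN
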