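import Mathlib
import Pool.Agent.Q51.UN.Core

set_option autoImplicit false

/-!
# The uniform bound for the number of points near a group of finite rank

The bound depends only on the group, the number of vectors and the degree of the equations; it does
not depend on the dimension of the projective space, the equations, the field and the vectors.
-/

namespace Pool.Agent.Q51.UN

open Finset MvPolynomial Pool.Agent.Helper259.AbsHt Pool.Agent.H533R3.SL Pool.Agent.Y215.SP
open Pool.Agent.Y215.SK (DivHull)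

theorem aeval_eval {n : ℕ} {L : Type} [Field L] (x : Fin n → L) (F : MvPolynomial (Fin n) L) :
    aeval x F = eval x F := by
  rw [aeval_def]
  rfl

/-- the points of projective space over `L` with homogeneous coordinates `∑ u_j s_j v_j`, `u_j` in
the division hull of `Γ`, `(s_1 : … : s_r)` of height less than `ε`, which are zeros of the `P_i` and
not of `G` -/
def nearOff {n N r : ℕ} {L : Type} [Field L] (ι : Qbar →+* L)
    (P : Fin N → MvPolynomial (Fin (n + 1)) L) (G : MvPolynomial (Fin (n + 1)) L)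
    (Γ : Subgroup Qbarˣ) (ε : ℝ)
    (v : Fin r → Fin (n + 1) → L) : Set (Projectivization L (Fin (n + 1) → L)) :=
  {p | ∃ t : Fin r → Qbar, Mx Γ ε t ∧
    (∀ i, eval (pt ι v t) (P i) = 0) ∧ eval (pt ι v t) G ≠ 0 ∧
    ∃ h : pt ι v t ≠ 0, p = Projectivization.mk L (pt ι v t) h}

/-- the height bound -/
noncomputable def epsU (d r : ℕ) : ℝ := eps0 (((d + 1) ^ r).factorial) / ((d + 1) ^ r : ℕ)

theorem epsU_pos (d r : ℕ) : 0 < epsU d r := by
  unfold epsU
  refine div_pos (eps0_pos _) ?_
  have : 0 < (d + 1) ^ r := by positivity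
  exact_mod_cast this

theorem card_nearOff (Γ : Subgroup Qbarˣ) (hΓ : Γ.FG) (d r : ℕ) (hd : 1 ≤ d) :
    ∃ M : ℕ, ∀ (n N : ℕ) (L : Type) [Field L] (ι : Qbar →+* L)
      (P : Fin N → MvPolynomial (Fin (n + 1)) L) (_ : ∀ i, ∃ e, e ≤ d ∧ (P i).IsHomogeneous e)
      (G : MvPolynomial (Fin (n + 1)) L) (T : Set (Fin r × Fin (n + 1)))
      (_ : ∀ (c : Fin r → Fin (n + 1) → L) (l : Fin r → ℕ),
        (∀ j a, (j, a) ∉ T → c j a = 0) →
        (∀ i, MvPolynomial.aeval (cur c l) (P i) = 0) →
        (∃ i i', cur c l i * Polynomial.C (∑ j, c j i') ≠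
          cur c l i' * Polynomial.C (∑ j, c j i)) →
        eval (fun i => ∑ j, c j i) G = 0)
      (v : Fin r → Fin (n + 1) → L) (_ : ∀ j a, (j, a) ∉ T → v j a = 0),
      (nearOff ι P G Γ (epsU d r / d) v).encard ≤ (M : ℕ∞) := by
  classical
  obtain ⟨T1, hT1⟩ := exists_ratios Γ hΓ (((d + 1) ^ r).factorial)
  obtain ⟨T0, hT0, hT0c⟩ : ∃ T0 : Finset Qbar, Ratios Γ ((d + 1) ^ r).factorial
      (((d + 1) ^ r : ℕ) * epsU d r) T0 ∧ 1 ≤ T0.card := by
    refine ⟨insert 1 T1, ?_, Finset.card_pos.2 ⟨1, Finset.mem_insert_self _ _⟩⟩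
    have h1 : (((d + 1) ^ r : ℕ) : ℝ) * epsU d r = eps0 (((d + 1) ^ r).factorial) := by
      unfold epsU
      have : ((((d + 1) ^ r : ℕ)) : ℝ) ≠ 0 := by
        have : 0 < (d + 1) ^ r := by positivity
        exact_mod_cast this.ne'
      field_simp
    rw [h1]
    intro α _ hα z h2 h3 h4 h5 j j'
    exact Finset.mem_insert_of_mem (hT1 α hα z h2 h3 h4 h5 j j')
  refine ⟨2 ^ r * MM T0.card ((d + 1) ^ r) d r, ?_⟩
  intro n N L _ ι P hP G T hG v hv
  set ε := epsU d r / d with hε
  let mask : Finset (Fin r) → Fin r → Fin (n + 1) → L := fun A j i => if j ∈ A then v j i else 0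
  have hcov : nearOff ι P G Γ ε v ⊆ ⋃ A : Finset (Fin r), Off0M ι P G Γ ε (mask A) := by
    rintro p ⟨t, hth, htz, htG, h0, hp⟩
    have hA : ∃ j1, t j1 ≠ 0 := by
      by_contra h
      push Not at h
      apply h0
      funext i
      refine Finset.sum_eq_zero fun j _ => ?_
      rw [h j, map_zero, zero_mul]
    obtain ⟨j1, hj1⟩ := hA
    let A := Finset.univ.filter (fun j => t j ≠ 0)
    let σ : Fin r → Fin r := fun j => if t j ≠ 0 then j else j1
    have hpt : pt ι (mask A) (t ∘ σ) = pt ι v t := by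
      funext i
      refine Finset.sum_congr rfl fun j _ => ?_
      by_cases hj : t j = 0
      · have h1 : mask A j i = 0 := if_neg (by simp [A, hj])
        rw [h1, hj, map_zero, zero_mul, mul_zero]
      · have h1 : mask A j i = v j i := if_pos (by simp [A, hj])
        have h2 : σ j = j := if_pos hj
        rw [h1, Function.comp_apply, h2]
    rw [Set.mem_iUnion]
    refine ⟨A, t ∘ σ, fun j => ?_, ?_, ?_, ?_, ?_⟩
    · by_cases hj : t j = 0
      · have h2 : σ j = j1 := if_neg (by simpa using hj)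
        rw [Function.comp_apply, h2]
        exact hj1
      · have h2 : σ j = j := if_pos hj
        rw [Function.comp_apply, h2]
        exact hj
    · exact hth.comp σ
    · intro i
      rw [hpt, aeval_eval]
      exact htz i
    · rw [hpt, aeval_eval]
      exact htG
    · have h1 : pt ι (mask A) (t ∘ σ) ≠ 0 := by rw [hpt]; exact h0
      exact ⟨h1, hp.trans (mk_congr h0 h1 hpt.symm)⟩
  refine (encard_le_mul _ _ (MM T0.card ((d + 1) ^ r) d r) hcov fun A => ?_).trans ?_
  · obtain ⟨P', hP'1, hP'2⟩ := exists_few (mask A) P d hP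
    have hsub : Off0M ι P G Γ ε (mask A) ⊆ Off0M ι P' G Γ ε (mask A) := by
      rintro p ⟨t, h1, h2, h3, h4, h5⟩
      refine ⟨t, h1, h2, fun a => ?_, h4, h5⟩
      rcases hP'1 a with h | ⟨i, h⟩
      · rw [h, map_zero]
      · rw [h]
        exact h3 i
    refine (Set.encard_le_encard hsub).trans ?_
    refine card_off0M P' d hd (fun a => ?_) G ι Γ (epsU d r) (epsU_pos d r) T0 hT0 hT0c
      (mask A) fun s l hz hc => ?_
    · rcases hP'1 a with h | ⟨i, h⟩
      · exact ⟨0, Nat.zero_le _, by rw [h]; exact MvPolynomial.isHomogeneous_zero _ _ _⟩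
      · rw [h]
        exact hP i
    · rw [aeval_eval]
      refine hG _ l (fun j a hja => ?_)
        (fun i => cur_span s (mask A) l P' hz (P i) (hP'2 i)) hc
      show s j * (if j ∈ A then v j a else 0) = 0
      rw [hv j a hja, ite_self, mul_zero]
  · rw [Nat.card_eq_fintype_card, Fintype.card_finset, Fintype.card_fin]

end Pool.Agent.Q51.UN
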